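import Pool.Agent.W406.PX.Stmts

set_option autoImplicit false

open Finset

namespace Pool.Agent.W486.PX.Max

lemma right (g h : ℕ → ℝ) (K : ℝ) (c : ℕ) (hg : ∀ n, 0 ≤ g n) (hh : ∀ n, 0 ≤ h n) (hK : 0 ≤ K)
    (R : ℕ → Prop) [DecidablePred R]
    (hR : ∀ p, R p → ∃ x, p ≤ x ∧ x ≤ c ∧ ∑ n ∈ Ioc (p - 1) x, g n < K * ∑ n ∈ Ioc (p - 1) x, h n) :
    ∀ k t : ℕ, c - t = k → t ≤ c →
      ∑ p ∈ (Ioc t c).filter R, g p ≤ K * ∑ n ∈ Ioc t c, h n := by
  intro k
  induction k using Nat.strong_induction_on with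
  | _ k ih =>
    intro t hk htc
    rcases htc.eq_or_lt with rfl | hlt
    · simp
    · by_cases hRt : R (t + 1)
      · obtain ⟨x, hx1, hx2, hx3⟩ := hR _ hRt
        rw [Nat.add_sub_cancel] at hx3
        have h1 := ih (c - x) (by omega) x rfl hx2
        have e1 : ∑ n ∈ Ioc t c, h n = ∑ n ∈ Ioc t x, h n + ∑ n ∈ Ioc x c, h n :=
          (Finset.sum_Ioc_consecutive h (by omega) hx2).symm
        have e2 : ∑ p ∈ (Ioc t c).filter R, g p ≤
            ∑ n ∈ Ioc t x, g n + ∑ p ∈ (Ioc x c).filter R, g p := by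
          rw [Finset.sum_filter, Finset.sum_filter,
            ← Finset.sum_Ioc_consecutive (fun a => if R a then g a else 0) (by omega : t ≤ x) hx2]
          gcongr with i hi
          split_ifs
          · exact le_rfl
          · exact hg i
        rw [e1, mul_add]
        linarith
      · have h1 := ih (c - (t + 1)) (by omega) (t + 1) rfl (by omega)
        have e1 : ∑ n ∈ Ioc t c, h n = h (t + 1) + ∑ n ∈ Ioc (t + 1) c, h n := by
          rw [← Finset.sum_Ioc_consecutive h (by omega : t ≤ t + 1) (by omega)]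
          simp
        have e2 : ∑ p ∈ (Ioc t c).filter R, g p = ∑ p ∈ (Ioc (t + 1) c).filter R, g p := by
          rw [Finset.sum_filter, Finset.sum_filter,
            ← Finset.sum_Ioc_consecutive (fun a => if R a then g a else 0)
              (by omega : t ≤ t + 1) (by omega)]
          simp [hRt]
        rw [e1, e2, mul_add]
        have := mul_nonneg hK (hh (t + 1))
        linarith

lemma left (g h : ℕ → ℝ) (K : ℝ) (a : ℕ) (hg : ∀ n, 0 ≤ g n) (hh : ∀ n, 0 ≤ h n) (hK : 0 ≤ K)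
    (R : ℕ → Prop) [DecidablePred R]
    (hR : ∀ p, R p → ∃ x, a ≤ x ∧ x < p ∧ ∑ n ∈ Ioc x p, g n < K * ∑ n ∈ Ioc x p, h n) :
    ∀ t : ℕ, a ≤ t →
      ∑ p ∈ (Ioc a t).filter R, g p ≤ K * ∑ n ∈ Ioc a t, h n := by
  intro t
  induction t using Nat.strong_induction_on with
  | _ t ih =>
    intro hat
    rcases hat.eq_or_lt with rfl | hlt
    · simp
    · by_cases hRt : R t
      · obtain ⟨x, hx1, hx2, hx3⟩ := hR _ hRt
        have h1 := ih x hx2 hx1
        have e1 : ∑ n ∈ Ioc a t, h n = ∑ n ∈ Ioc a x, h n + ∑ n ∈ Ioc x t, h n :=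
          (Finset.sum_Ioc_consecutive h hx1 hx2.le).symm
        have e2 : ∑ p ∈ (Ioc a t).filter R, g p ≤
            ∑ p ∈ (Ioc a x).filter R, g p + ∑ n ∈ Ioc x t, g n := by
          rw [Finset.sum_filter, Finset.sum_filter,
            ← Finset.sum_Ioc_consecutive (fun a => if R a then g a else 0) hx1 hx2.le]
          gcongr with i hi
          split_ifs
          · exact le_rfl
          · exact hg i
        rw [e1, mul_add]
        linarith
      · obtain ⟨s, rfl⟩ : ∃ s, t = s + 1 := ⟨t - 1, by omega⟩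
        have h1 := ih s (by omega) (by omega)
        have e1 : ∑ n ∈ Ioc a (s + 1), h n = ∑ n ∈ Ioc a s, h n + h (s + 1) := by
          rw [← Finset.sum_Ioc_consecutive h (by omega : a ≤ s) (by omega : s ≤ s + 1)]
          simp
        have e2 : ∑ p ∈ (Ioc a (s + 1)).filter R, g p = ∑ p ∈ (Ioc a s).filter R, g p := by
          rw [Finset.sum_filter, Finset.sum_filter,
            ← Finset.sum_Ioc_consecutive (fun a => if R a then g a else 0)
              (by omega : a ≤ s) (by omega : s ≤ s + 1)]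
          simp [hRt]
        rw [e1, e2, mul_add]
        have := mul_nonneg hK (hh (s + 1))
        linarith

theorem task : Pool.Agent.W406.PX.TaskMax := by
  classical
  intro g h K a A B c hg hh hK haA hAB hBc hlt
  by_contra hcon
  push Not at hcon
  obtain ⟨R, hRd⟩ : ∃ R : ℕ → Prop, ∀ p, R p ↔ ∃ x, p ≤ x ∧ x ≤ c ∧
    ∑ n ∈ Ioc (p - 1) x, g n < K * ∑ n ∈ Ioc (p - 1) x, h n := ⟨_, fun p => Iff.rfl⟩
  obtain ⟨L, hLd⟩ : ∃ L : ℕ → Prop, ∀ p, L p ↔ ∃ x, a ≤ x ∧ x < p ∧
    ∑ n ∈ Ioc x p, g n < K * ∑ n ∈ Ioc x p, h n := ⟨_, fun p => Iff.rfl⟩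
  have h1 := right g h K c hg hh hK R (fun p hp => (hRd p).mp hp) (c - A) A rfl (hAB.trans hBc)
  have h2 := left g h K a hg hh hK L (fun p hp => (hLd p).mp hp) B (haA.trans hAB)
  have h3 : ∑ p ∈ (Ioc A B).filter R, g p ≤ ∑ p ∈ (Ioc A c).filter R, g p := by
    refine Finset.sum_le_sum_of_subset_of_nonneg ?_ (fun i _ _ => hg i)
    exact Finset.filter_subset_filter _ (Finset.Ioc_subset_Ioc_right hBc)
  have h4 : ∑ p ∈ (Ioc A B).filter L, g p ≤ ∑ p ∈ (Ioc a B).filter L, g p := by
    refine Finset.sum_le_sum_of_subset_of_nonneg ?_ (fun i _ _ => hg i)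
    exact Finset.filter_subset_filter _ (Finset.Ioc_subset_Ioc_left haA)
  have h5 : ∑ p ∈ Ioc A B, g p ≤
      ∑ p ∈ (Ioc A B).filter R, g p + ∑ p ∈ (Ioc A B).filter L, g p := by
    rw [Finset.sum_filter, Finset.sum_filter, ← Finset.sum_add_distrib]
    refine Finset.sum_le_sum fun p hp => ?_
    by_cases hRp : R p
    · simp only [hRp, if_true]
      have : 0 ≤ if L p then g p else 0 := by
        split_ifs
        · exact hg p
        · exact le_rfl
      linarith
    · by_cases hLp : L p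
      · simp only [hRp, hLp, if_true, if_false]
        linarith
      · simp only [hRp, hLp, if_false]
        rcases (hg p).eq_or_lt with h0 | h0
        · rw [← h0]; simp
        · exfalso
          have hR' : ∀ x : ℕ, p ≤ x → x ≤ c →
              K * ∑ n ∈ Ioc (p - 1) x, h n ≤ ∑ n ∈ Ioc (p - 1) x, g n := by
            intro x hx1 hx2
            by_contra hx3
            exact hRp ((hRd p).mpr ⟨x, hx1, hx2, not_le.mp hx3⟩)
          obtain ⟨x, hx1, hx2, hx3⟩ := hcon p hp h0 hR'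
          exact hLp ((hLd p).mpr ⟨x, hx1, hx2, hx3⟩)
  rw [mul_add] at hlt
  linarith

end Pool.Agent.W486.PX.Max
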